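import Pool.Agent.W2helper83.Cir.Final

/-!
# The minimum number of circles determined by `n` points, for `n = 4`, `n = 5` and all `n ≥ 15`
-/

set_option autoImplicit false

namespace Pool.Agent.Results.MP_1f1ca1_co.MinCircles

open Pool.Agent.W2helper83.Cir

/-- For `n = 4`, `n = 5` and every `n ≥ 15`, the least number of circles determined by an
admissible set of `n` points of the plane is `C(n - 1, 2) + 1 - ⌊(n - 1) / 2⌋`. -/
theorem result (n : ℕ) (h : n = 4 ∨ n = 5 ∨ 15 ≤ n) :
    IsLeast {k : ℕ | ∃ P : Finset E2, P.card = n ∧ Admissible P ∧ (circles P).ncard = k}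
      ((n - 1).choose 2 + 1 - (n - 1) / 2) :=
  main n h

end Pool.Agent.Results.MP_1f1ca1_co.MinCircles
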